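import Pool.Agent.H.MP_0a5ef7_al.A
import Pool.Agent.H.MP_0a5ef7_al.C

namespace Pool.Agent.Results.MP_0a5ef7_al.Counter

open IsLocalRing RingTheory.Sequence Pool.Agent.H.MP_8741c9_al

/-- Depth over a local ring: supremum of the lengths of the `M`-regular sequences in the maximal
ideal (infinite for the zero module). -/
noncomputable def depth (R M : Type) [CommRing R] [IsLocalRing R] [AddCommGroup M] [Module R M] :
    ℕ∞ :=
  ⨆ (rs : List R) (_ : (∀ r ∈ rs, r ∈ maximalIdeal R) ∧ IsWeaklyRegular M rs), (rs.length : ℕ∞)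

/-- Maximal Cohen-Macaulay: finitely generated with `depth M_p ≥ dim R_p` for all primes `p`. -/
def IsMCM (R M : Type) [CommRing R] [AddCommGroup M] [Module R M] : Prop :=
  Module.Finite R M ∧ ∀ (p : Ideal R) [p.IsPrime], ringKrullDim (Localization.AtPrime p) ≤
    (depth (Localization.AtPrime p) (LocalizedModule p.primeCompl M) : WithBot ℕ∞)

/-- Indecomposable module. -/
def Indec (R M : Type) [CommRing R] [AddCommGroup M] [Module R M] : Prop :=
  Nontrivial M ∧ ∀ N N' : Submodule R M, IsCompl N N' → N = ⊥ ∨ N' = ⊥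

/-- Countable CM-representation type. -/
def CountableCM (R : Type) [CommRing R] : Prop :=
  ∃ f : ℕ → ModuleCat.{0} R, ∀ M : ModuleCat.{0} R, IsMCM R M → Indec R M →
    ∃ n, Nonempty (M ≃ₗ[R] f n)

variable {R : Type} [CommRing R] [IsLocalRing R]

/-- `Syz i M N`: `N` is the `i`-th syzygy of `M` in its minimal free resolution. -/
def Syz : ℕ → ModuleCat.{0} R → ModuleCat.{0} R → Prop
  | 0, M, N => Nonempty (N ≃ₗ[R] M)
  | i + 1, M, N => ∃ N' : ModuleCat.{0} R, Syz i M N' ∧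
      ∃ (n : ℕ) (π : (Fin n → R) →ₗ[R] N'), Function.Surjective π ∧
        LinearMap.ker π ≤ maximalIdeal R • ⊤ ∧ Nonempty (N ≃ₗ[R] LinearMap.ker π)

/-- Direct summands of finite direct sums of modules in `𝒳`. -/
def add (𝒳 : Set (ModuleCat.{0} R)) : Set (ModuleCat.{0} R) :=
  {M | ∃ (n : ℕ) (X : Fin n → ModuleCat.{0} R), (∀ i, X i ∈ 𝒳) ∧
    ∃ (s : M →ₗ[R] ∀ i, X i) (p : (∀ i, X i) →ₗ[R] M), p ∘ₗ s = LinearMap.id}

/-- `[𝒳]`. -/
def br (𝒳 : Set (ModuleCat.{0} R)) : Set (ModuleCat.{0} R) :=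
  add ({ModuleCat.of R R} ∪ {N | ∃ (i : ℕ), ∃ X ∈ 𝒳, Syz i X N})

/-- `𝒳 ∘ 𝒴`. -/
def ext (𝒳 𝒴 : Set (ModuleCat.{0} R)) : Set (ModuleCat.{0} R) :=
  {M | ∃ X ∈ 𝒳, ∃ Y ∈ 𝒴, ∃ (f : X →ₗ[R] M) (g : M →ₗ[R] Y),
    Function.Injective f ∧ Function.Surjective g ∧ Function.Exact f g}

/-- `[𝒞]_r`. -/
def brN (𝒞 : Set (ModuleCat.{0} R)) : ℕ → Set (ModuleCat.{0} R)
  | 0 => {M | Subsingleton M}
  | 1 => br 𝒞
  | r + 2 => br (ext (brN 𝒞 (r + 1)) (br 𝒞))

lemma syz_fac {c : R} {X : ModuleCat.{0} R} (h : c • LinearMap.id ∈ Fac R X X) (i : ℕ) :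
    ∀ N, Syz i X N → c • LinearMap.id ∈ Fac R N N := by
  induction i with
  | zero => exact fun N ⟨e⟩ => Fac_retract h e.toLinearMap e.symm.toLinearMap (by simp)
  | succ i ih =>
    rintro N ⟨N', h1, n, π, hπ, -, ⟨e⟩⟩
    exact Fac_retract (Fac_syz π hπ (ih N' h1)) e.toLinearMap e.symm.toLinearMap (by simp)

lemma br_fac {c : R} {𝒳 : Set (ModuleCat.{0} R)} (h : ∀ X ∈ 𝒳, c • LinearMap.id ∈ Fac R X X) :
    ∀ M ∈ br 𝒳, c • LinearMap.id ∈ Fac R M M := by
  rintro M ⟨n, X, hX, s, p, hs⟩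
  refine Fac_retract (Fac_pi fun i => ?_) s p hs
  rcases hX i with h1 | ⟨j, Y, hY, h1⟩
  · rw [Set.mem_singleton_iff.mp h1]
    exact Fac_self c
  · exact syz_fac (h Y hY) j _ h1

lemma brN_fac {c : R} {𝒳 : Set (ModuleCat.{0} R)} (h : ∀ X ∈ 𝒳, c • LinearMap.id ∈ Fac R X X) :
    ∀ n, ∀ M ∈ brN 𝒳 n, c ^ n • LinearMap.id ∈ Fac R M M
  | 0 => fun M hM => by
    have : Subsingleton M := hM
    rw [Subsingleton.elim (c ^ 0 • LinearMap.id) 0]
    exact Submodule.zero_mem _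
  | 1 => fun M hM => by rw [pow_one]; exact br_fac h M hM
  | r + 2 => br_fac fun M ⟨X, hX, Y, hY, f, g, hf, hg, he⟩ => by
    rw [pow_succ]
    exact Fac_ext f g hf hg he (brN_fac h (r + 1) X hX) (br_fac h Y hY)

lemma reg_of (hd : ringKrullDim R = 2) {M : Type} [AddCommGroup M] [Module R M] (h : IsMCM R M) :
    ∃ a ∈ maximalIdeal R, ∃ b ∈ maximalIdeal R, IsWeaklyRegular M [a, b] := by
  let P := (maximalIdeal R).primeCompl
  have hP : ∀ s : P, IsUnit (s : R) := fun s => notMem_maximalIdeal.mp s.2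
  have h2 := h.2 (maximalIdeal R)
  rw [IsLocalization.AtPrime.ringKrullDim_eq_height (maximalIdeal R),
    maximalIdeal_height_eq_ringKrullDim, hd] at h2
  have h1 : 1 < depth (Localization.AtPrime (maximalIdeal R)) (LocalizedModule P M) :=
    lt_of_lt_of_le (by decide) (WithBot.coe_le_coe.mp h2)
  obtain ⟨rs, h3⟩ := lt_iSup_iff.mp h1
  obtain ⟨⟨h4, h5⟩, h6⟩ := lt_iSup_iff.mp h3
  obtain ⟨a, b, rs, rfl⟩ : ∃ a b t, rs = [a, b] ++ t := by
    rcases rs with _ | ⟨a, _ | ⟨b, t⟩⟩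
    · simp at h6
    · simp at h6
    · exact ⟨a, b, t, rfl⟩
  have hs := (IsLocalization.atUnits R P (S := Localization.AtPrime (maximalIdeal R))
    fun s hs => hP ⟨s, hs⟩).surjective
  obtain ⟨a, rfl⟩ := hs a
  obtain ⟨b, rfl⟩ := hs b
  have hb : Function.Bijective (LocalizedModule.mkLinearMap P M) := by
    refine ⟨fun x y e => ?_, fun x => ?_⟩
    · obtain ⟨c, hc⟩ := IsLocalizedModule.exists_of_eq (S := P) e
      exact (hP c).isSMulRegular M hc
    · obtain ⟨⟨m, s⟩, e⟩ := IsLocalizedModule.surj P (LocalizedModule.mkLinearMap P M) x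
      obtain ⟨t, ht⟩ := (hP s).exists_left_inv
      exact ⟨t • m, by rw [map_smul, ← e, Submonoid.smul_def, smul_smul, ht, one_smul]⟩
  refine ⟨a, (IsLocalization.AtPrime.to_map_mem_maximal_iff _ _ a).mp (h4 _ (by simp)), b,
    (IsLocalization.AtPrime.to_map_mem_maximal_iff _ _ b).mp (h4 _ (by simp)), ?_⟩
  rw [(LinearEquiv.ofBijective _ hb).isWeaklyRegular_congr,
    ← isWeaklyRegular_map_algebraMap_iff (Localization.AtPrime (maximalIdeal R))]
  exact ((isWeaklyRegular_append_iff _ _ _).mp h5).1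

lemma mcm_of [IsNoetherianRing R] [IsDomain R] (hd : ringKrullDim R = 2) {M : Type}
    [AddCommGroup M] [Module R M] [Module.Finite R M] [Module.IsTorsionFree R M] {a b : R}
    (ha : a ∈ maximalIdeal R) (hb : b ∈ maximalIdeal R) (h : IsWeaklyRegular M [a, b]) :
    IsMCM R M := by
  refine ⟨inferInstance, fun p _ => ?_⟩
  have key : ∀ rs : List R, (∀ r ∈ rs, r ∈ p) → IsWeaklyRegular M rs → (rs.length : ℕ∞) ≤
      depth (Localization.AtPrime p) (LocalizedModule p.primeCompl M) := fun rs h1 h2 =>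
    le_iSup₂_of_le (rs.map (algebraMap R _)) ⟨fun r hr => by
      obtain ⟨x, hx, rfl⟩ := List.mem_map.mp hr
      exact (IsLocalization.AtPrime.to_map_mem_maximal_iff _ p x).mpr (h1 x hx),
      h2.of_isLocalizedModule _ p.primeCompl (LocalizedModule.mkLinearMap _ M)⟩ (by simp)
  have hm : (maximalIdeal R).height = 2 :=
    WithBot.coe_injective (maximalIdeal_height_eq_ringKrullDim.trans hd)
  rw [IsLocalization.AtPrime.ringKrullDim_eq_height p, WithBot.coe_le_coe]
  by_cases h1 : p = maximalIdeal R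
  · subst h1
    exact hm.le.trans (key [a, b] (by simpa using ⟨ha, hb⟩) h)
  by_cases h0 : p = ⊥
  · simp [h0]
  obtain ⟨c, hc, hc0⟩ := Submodule.exists_mem_ne_zero_of_ne_bot h0
  have := Ideal.height_strict_mono_of_isPrime
    (lt_of_le_of_ne (le_maximalIdeal Ideal.IsPrime.ne_top') h1)
  rw [hm] at this
  exact (Order.le_of_lt_add_one this).trans (key [c] (by simpa using hc)
    ((isWeaklyRegular_singleton_iff M c).mpr (IsSMulRegular.of_ne_zero hc0)))

theorem result : ∃ (R : Type) (_ : CommRing R) (_ : IsNoetherianRing R) (_ : IsLocalRing R),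
    Nonempty (ResidueField R ≃+* ℂ) ∧ IsMCM R R ∧ CountableCM R ∧
    ∀ (G : ModuleCat.{0} R) (n : ℕ), IsMCM R G → {M : ModuleCat.{0} R | IsMCM R M} ≠ brN {G} n := by
  obtain ⟨N, hz, ⟨uB, hu⟩, -⟩ := H.MP_0a5ef7_al.exists_N
  let D := H.MP_0a5ef7_al.DD
  have hzm : N.zB ∈ maximalIdeal N.B := N.mem_m.mpr N.zm
  have hd := D.dimB hz hu
  refine ⟨N.B, inferInstance, inferInstance, inferInstance, ?_,
    mcm_of hd hzm (D.uB_m hz hu) (D.regB hz hu).1, ?_, fun G n hG hn => ?_⟩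
  · let f : N.B →+* ℂ := PowerSeries.constantCoeff.comp (D.e0.comp (D.cB N))
    have hf : Function.Surjective f := fun a => by
      obtain ⟨b, y, h⟩ := N.dens 1 (D.iS (PowerSeries.C a))
      have := congrArg (fun x : D.S => PowerSeries.constantCoeff (D.e0 x)) h
      rw [show N.z = D.zS from hz] at this
      simp only [D.coe_iS, D.e0i, pow_one, Subring.coe_add, Subring.coe_mul, D.coe_zS, map_add,
        map_mul, PowerSeries.constantCoeff_C] at this
      exact ⟨b, by rw [this, show D.w = PowerSeries.X from rfl]; simp [f, Data.cB]⟩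
    exact ⟨(Ideal.quotEquivOfEq (ker_eq_maximalIdeal f hf).symm).trans
      (RingHom.quotientKerEquivOfSurjective hf)⟩
  · obtain ⟨f, hf⟩ := D.countable N
    refine ⟨f, fun M hM _ => ?_⟩
    have := hM.1
    obtain ⟨a, ha, b, hb, h⟩ := reg_of hd hM
    exact hf M a b ha hb h
  · have := hG.1
    obtain ⟨a, ha, b, hb, h⟩ := reg_of hd hG
    have : Module.IsTorsionFree N.B G := ⟨fun x hx => by
      rcases subsingleton_or_nontrivial G with _ | _
      · exact fun _ _ _ => Subsingleton.elim _ _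
      by_cases hm : x ∈ maximalIdeal N.B
      · exact reg_of_mcm hd (.of_isWeaklyRegular_of_mem_maximalIdeal G (by simpa using ⟨ha, hb⟩) h)
          hx.ne_zero hm
      · exact (notMem_maximalIdeal.mp hm).isSMulRegular G⟩
    have : IsDomain (Localization.Away N.zB) := IsLocalization.isDomain_localization
      (powers_le_nonZeroDivisors_of_noZeroDivisors N.primeB.ne_zero)
    have := N.pidAway
    obtain ⟨c, hc⟩ := Fac_loc (M := G) N.zB
    have hM : ModuleCat.of N.B (D.Mi N (c * n + 1)) ∈ brN {G} n := by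
      rw [← hn]
      exact mcm_of hd hzm (D.uB_m hz hu) ((wreg_pair _ _).mpr
        ⟨IsSMulRegular.of_ne_zero N.primeB.ne_zero, D.Mi_zu hz hu _⟩)
    have := brN_fac (by rintro _ rfl; exact hc) n _ hM
    rw [← pow_mul] at this
    have := D.Mi_not hz hu _ this
    omega

end Pool.Agent.Results.MP_0a5ef7_al.Counter
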